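import Mathlib

/-! Operator-theoretic core for MP_dfd7ce. -/

open ComplexConjugate

namespace V11196.NR

noncomputable section

variable {E : Type*} [NormedAddCommGroup E] [InnerProductSpace ℂ E] [CompleteSpace E]

/-- `A`, `B` are doubly commuting isometries with adjoints `A'`, `B'`. -/
structure Sh (A A' B B' : E →L[ℂ] E) : Prop where
  adjA : ∀ x y, inner ℂ (A x) y = inner ℂ x (A' y)
  adjB : ∀ x y, inner ℂ (B x) y = inner ℂ x (B' y)
  A'A : ∀ x, A' (A x) = x
  B'B : ∀ x, B' (B x) = x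
  AB : ∀ x, A (B x) = B (A x)
  A'B : ∀ x, A' (B x) = B (A' x)
  B'A : ∀ x, B' (A x) = A (B' x)
  B'A' : ∀ x, B' (A' x) = A' (B' x)

/-- the operator of multiplication by the denominator -/
def PP (A B : E →L[ℂ] E) : E →L[ℂ] E := 1 + (1 / 4 : ℂ) • (B * (A + A * A))

/-- the operator of multiplication by the numerator -/
def PT (A B : E →L[ℂ] E) : E →L[ℂ] E := B * (A * A) + (1 / 4 : ℂ) • (1 + A)

lemma PP_apply (A B : E →L[ℂ] E) (x : E) :
    PP A B x = x + (1 / 4 : ℂ) • B (A x + A (A x)) := by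
  simp [PP]

lemma PT_apply (A B : E →L[ℂ] E) (x : E) :
    PT A B x = B (A (A x)) + (1 / 4 : ℂ) • (x + A x) := by
  simp [PT]

namespace Sh

variable {A A' B B' : E →L[ℂ] E} (h : Sh A A' B B')
include h

lemma adjA' (x y : E) : inner ℂ x (A y) = inner ℂ (A' x) y := by
  rw [← inner_conj_symm, h.adjA, inner_conj_symm]

lemma adjB' (x y : E) : inner ℂ x (B y) = inner ℂ (B' x) y := by
  rw [← inner_conj_symm, h.adjB, inner_conj_symm]

lemma normA (x : E) : ‖A x‖ = ‖x‖ := by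
  have h1 : inner ℂ (A x) (A x) = inner ℂ x x := by rw [h.adjA, h.A'A]
  rw [inner_self_eq_norm_sq_to_K, inner_self_eq_norm_sq_to_K] at h1
  have h2 : ‖A x‖ ^ 2 = ‖x‖ ^ 2 := by exact_mod_cast h1
  exact (sq_eq_sq₀ (norm_nonneg _) (norm_nonneg _)).mp h2

lemma normB (x : E) : ‖B x‖ = ‖x‖ := by
  have h1 : inner ℂ (B x) (B x) = inner ℂ x x := by rw [h.adjB, h.B'B]
  rw [inner_self_eq_norm_sq_to_K, inner_self_eq_norm_sq_to_K] at h1
  have h2 : ‖B x‖ ^ 2 = ‖x‖ ^ 2 := by exact_mod_cast h1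
  exact (sq_eq_sq₀ (norm_nonneg _) (norm_nonneg _)).mp h2

lemma normA' (x : E) : ‖A' x‖ ≤ ‖x‖ := by
  have h1 : inner ℂ (A' x) (A' x) = inner ℂ x (A (A' x)) := by rw [h.adjA']
  have h2 : ‖A' x‖ ^ 2 ≤ ‖x‖ * ‖A' x‖ := by
    have h3 : ‖(inner ℂ (A' x) (A' x) : ℂ)‖ = ‖A' x‖ ^ 2 := by
      rw [inner_self_eq_norm_sq_to_K]
      simp
    rw [← h3, h1]
    calc ‖(inner ℂ x (A (A' x)) : ℂ)‖ ≤ ‖x‖ * ‖A (A' x)‖ := norm_inner_le_norm _ _
      _ = ‖x‖ * ‖A' x‖ := by rw [h.normA]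
  rcases eq_or_lt_of_le (norm_nonneg (A' x)) with h4 | h4
  · rw [← h4]
    exact norm_nonneg _
  · nlinarith

lemma normB' (x : E) : ‖B' x‖ ≤ ‖x‖ := by
  have h1 : inner ℂ (B' x) (B' x) = inner ℂ x (B (B' x)) := by rw [h.adjB']
  have h2 : ‖B' x‖ ^ 2 ≤ ‖x‖ * ‖B' x‖ := by
    have h3 : ‖(inner ℂ (B' x) (B' x) : ℂ)‖ = ‖B' x‖ ^ 2 := by
      rw [inner_self_eq_norm_sq_to_K]
      simp
    rw [← h3, h1]
    calc ‖(inner ℂ x (B (B' x)) : ℂ)‖ ≤ ‖x‖ * ‖B (B' x)‖ := norm_inner_le_norm _ _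
      _ = ‖x‖ * ‖B' x‖ := by rw [h.normB]
  rcases eq_or_lt_of_le (norm_nonneg (B' x)) with h4 | h4
  · rw [← h4]
    exact norm_nonneg _
  · nlinarith

lemma PP_A (x : E) : PP A B (A x) = A (PP A B x) := by
  simp only [PP_apply, map_add, map_smul, h.AB]

lemma PP_B (x : E) : PP A B (B x) = B (PP A B x) := by
  simp only [PP_apply, map_add, map_smul, h.AB]

lemma PP_PT (x : E) : PP A B (PT A B x) = PT A B (PP A B x) := by
  simp only [PP_apply, PT_apply, map_add, map_smul, h.AB, smul_add]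
  abel

/-- the adjoint of `PT` -/
lemma adjPT (x y : E) :
    inner ℂ (PT A B x) y = inner ℂ x (A' (A' (B' (PP A B y)))) := by
  have h1 : A' (A' (B' (PP A B y))) = A' (A' (B' y)) + (1 / 4 : ℂ) • (A' y + y) := by
    rw [PP_apply]
    simp only [map_add, map_smul, h.B'B, h.A'A]
  rw [h1, PT_apply, inner_add_left, inner_add_right, h.adjB, h.adjA, h.adjA]
  congr 1
  · rw [inner_smul_left, inner_smul_right, inner_add_left, inner_add_right, h.adjA]
    have : conj (1 / 4 : ℂ) = 1 / 4 := by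
      rw [map_div₀, map_one, Complex.conj_ofNat]
    rw [this]
    ring

lemma exists_inv : ∃ Pi : E →L[ℂ] E, (∀ x, PP A B (Pi x) = x) ∧ ∀ x, Pi (PP A B x) = x := by
  have hn : ‖-((1 / 4 : ℂ) • (B * (A + A * A)))‖ < 1 := by
    rw [norm_neg]
    have h1 : ‖(1 / 4 : ℂ) • (B * (A + A * A))‖ ≤ 1 / 2 := by
      apply ContinuousLinearMap.opNorm_le_bound _ (by norm_num)
      intro x
      have h2 : ((1 / 4 : ℂ) • (B * (A + A * A))) x = (1 / 4 : ℂ) • B (A x + A (A x)) := by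
        simp
      rw [h2, norm_smul, h.normB]
      have h3 : ‖A x + A (A x)‖ ≤ ‖x‖ + ‖x‖ := by
        refine (norm_add_le _ _).trans ?_
        rw [h.normA, h.normA, h.normA]
      have h4 : ‖(1 / 4 : ℂ)‖ = 1 / 4 := by norm_num
      rw [h4]
      linarith
    linarith
  have h5 := isUnit_one_sub_of_norm_lt_one hn
  rw [sub_neg_eq_add] at h5
  obtain ⟨u, hu⟩ := h5
  refine ⟨(↑u⁻¹ : E →L[ℂ] E), fun x => ?_, fun x => ?_⟩
  · have h6 : (PP A B) * (↑u⁻¹ : E →L[ℂ] E) = 1 := by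
      rw [PP, ← hu]
      exact u.mul_inv
    have h7 := congrArg (fun T : E →L[ℂ] E => T x) h6
    simpa using h7
  · have h6 : (↑u⁻¹ : E →L[ℂ] E) * (PP A B) = 1 := by
      rw [PP, ← hu]
      exact u.inv_mul
    have h7 := congrArg (fun T : E →L[ℂ] E => T x) h6
    simpa using h7

end Sh

/-- the space `S₂` -/
def SS (A A' B : E →L[ℂ] E) : Submodule ℂ E where
  carrier := {f | A' (A' (PP A B f)) = 0}
  add_mem' := by
    intro a b ha hb
    simp only [Set.mem_ofPred_eq] at *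
    rw [map_add, map_add, map_add, ha, hb, add_zero]
  zero_mem' := by simp
  smul_mem' := by
    intro c x hx
    simp only [Set.mem_ofPred_eq] at *
    rw [map_smul, map_smul, map_smul, hx, smul_zero]

/-- the space `K` -/
def KK (A A' B B' : E →L[ℂ] E) : Submodule ℂ E where
  carrier := {f | A' (A' (B' (PP A B f))) = 0}
  add_mem' := by
    intro a b ha hb
    simp only [Set.mem_ofPred_eq] at *
    rw [map_add, map_add, map_add, map_add, ha, hb, add_zero]
  zero_mem' := by simp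
  smul_mem' := by
    intro c x hx
    simp only [Set.mem_ofPred_eq] at *
    rw [map_smul, map_smul, map_smul, map_smul, hx, smul_zero]

lemma mem_SS {A A' B : E →L[ℂ] E} {f : E} : f ∈ SS A A' B ↔ A' (A' (PP A B f)) = 0 := Iff.rfl

lemma mem_KK {A A' B B' : E →L[ℂ] E} {f : E} :
    f ∈ KK A A' B B' ↔ A' (A' (B' (PP A B f))) = 0 := Iff.rfl

lemma isClosed_SS (A A' B : E →L[ℂ] E) : IsClosed (SS A A' B : Set E) := by
  have : (SS A A' B : Set E) = (fun f => A' (A' (PP A B f))) ⁻¹' {0} := by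
    ext f
    rfl
  rw [this]
  exact isClosed_singleton.preimage (by fun_prop)

lemma isClosed_KK (A A' B B' : E →L[ℂ] E) : IsClosed (KK A A' B B' : Set E) := by
  have : (KK A A' B B' : Set E) = (fun f => A' (A' (B' (PP A B f)))) ⁻¹' {0} := by
    ext f
    rfl
  rw [this]
  exact isClosed_singleton.preimage (by fun_prop)

namespace Sh

variable {A A' B B' : E →L[ℂ] E} (h : Sh A A' B B')
include h

lemma SS_le_KK : SS A A' B ≤ KK A A' B B' := by
  intro f hf
  rw [mem_SS] at hf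
  rw [mem_KK, ← h.B'A', ← h.B'A', hf, map_zero]

lemma B_mem_SS {f : E} (hf : f ∈ SS A A' B) : B f ∈ SS A A' B := by
  rw [mem_SS] at hf ⊢
  rw [h.PP_B, h.A'B, h.A'B, hf, map_zero]

/-- commutation of `PP` with `A'` -/
lemma PP_A' (f : E) :
    PP A B (A' f) = A' (PP A B f) -
      (1 / 4 : ℂ) • B ((PP A B f - A (A' (PP A B f))) + A (PP A B f - A (A' (PP A B f)))) := by
  have hu : PP A B f - A (A' (PP A B f)) = f - A (A' f) := by
    rw [PP_apply]
    simp only [map_add, map_smul, h.A'B, h.A'A, h.AB]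
    abel
  rw [hu]
  simp only [PP_apply, map_add, map_smul, map_sub, h.A'B, h.A'A, smul_add, smul_sub]
  abel

lemma A'_mem_SS {f : E} (hf : f ∈ SS A A' B) : A' f ∈ SS A A' B := by
  rw [mem_SS] at hf ⊢
  rw [h.PP_A']
  simp only [map_add, map_smul, map_sub, h.A'B, h.A'A, hf, sub_self, map_zero, smul_zero,
    add_zero]

/-- the complement of `SS` in `KK` is invariant under `A` -/
lemma A_mem_compl {f : E} (hf : f ∈ KK A A' B B')
    (hp : ∀ s ∈ SS A A' B, inner ℂ f s = 0) :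
    A f ∈ KK A A' B B' ∧ ∀ s ∈ SS A A' B, inner ℂ (A f) s = 0 := by
  refine ⟨?_, fun s hs => by rw [h.adjA]; exact hp _ (h.A'_mem_SS hs)⟩
  obtain ⟨Pi, hPi, -⟩ := h.exists_inv
  rw [mem_KK] at hf ⊢
  set g := B' (PP A B f) with hg
  set s := Pi g with hs
  have hsS : s ∈ SS A A' B := by
    rw [mem_SS, hs, hPi]
    exact hf
  set f' := f - B s with hf'
  have h1 : B' (PP A B f') = 0 := by
    rw [hf', map_sub, map_sub, h.PP_B, h.B'B, hs, hPi, ← hg, sub_self]
  have h2 : B' f' + (1 / 4 : ℂ) • (A f' + A (A f')) = 0 := by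
    rw [PP_apply] at h1
    rw [map_add, map_smul, h.B'B] at h1
    exact h1
  have hc : conj (1 / 4 : ℂ) = 1 / 4 := by
    rw [map_div₀, map_one, Complex.conj_ofNat]
  set v := B s + (1 / 4 : ℂ) • (A' s + A' (A' s)) with hv
  have hvS : v ∈ SS A A' B :=
    Submodule.add_mem _ (h.B_mem_SS hsS) (Submodule.smul_mem _ _
      (Submodule.add_mem _ (h.A'_mem_SS hsS) (h.A'_mem_SS (h.A'_mem_SS hsS))))
  have h3 : inner ℂ f' v = 0 := by
    have h4 : inner ℂ (B' f' + (1 / 4 : ℂ) • (A f' + A (A f'))) s = 0 := by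
      rw [h2, inner_zero_left]
    rw [inner_add_left, inner_smul_left, hc, inner_add_left, h.adjA, h.adjA, h.adjA,
      ← h.adjB'] at h4
    rw [hv, inner_add_right, inner_smul_right, inner_add_right]
    exact h4
  have h5 : inner ℂ (B s) v = 0 := by
    have h6 : inner ℂ f v = 0 := hp v hvS
    have h7 : f = f' + B s := by rw [hf']; abel
    rw [h7, inner_add_left, h3, zero_add] at h6
    exact h6
  have hs0 : s = 0 := by
    rw [hv, inner_add_right, h.adjB, h.B'B, inner_smul_right] at h5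
    have h6 : (inner ℂ s s : ℂ) = -((1 / 4 : ℂ) * inner ℂ (B s) (A' s + A' (A' s))) :=
      eq_neg_of_add_eq_zero_left h5
    have h7 : ‖s‖ ^ 2 ≤ 1 / 4 * (‖s‖ * (‖s‖ + ‖s‖)) := by
      have h8 : ‖(inner ℂ s s : ℂ)‖ = ‖s‖ ^ 2 := by
        rw [inner_self_eq_norm_sq_to_K]
        simp
      rw [← h8, h6, norm_neg, norm_mul]
      have h9 : ‖(1 / 4 : ℂ)‖ = 1 / 4 := by norm_num
      rw [h9]
      apply mul_le_mul_of_nonneg_left _ (by norm_num)
      refine (norm_inner_le_norm _ _).trans ?_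
      rw [h.normB]
      apply mul_le_mul_of_nonneg_left _ (norm_nonneg _)
      refine (norm_add_le _ _).trans ?_
      exact add_le_add (h.normA' _) ((h.normA' _).trans (h.normA' _))
    have h10 : ‖s‖ = 0 := by nlinarith [norm_nonneg s]
    exact norm_eq_zero.mp h10
  have hg0 : g = 0 := by
    have h6 : PP A B s = g := by rw [hs, hPi]
    rw [← h6, hs0, map_zero]
  rw [h.PP_A, h.B'A, ← hg, hg0]
  simp

/-- `PT`-ranges are orthogonal to `KK` -/
lemma inner_PT {f : E} (hf : f ∈ KK A A' B B') (x : E) : inner ℂ (PT A B x) f = 0 := by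
  rw [h.adjPT]
  rw [mem_KK] at hf
  rw [hf, inner_zero_right]

lemma inner_PT' {f : E} (hf : f ∈ KK A A' B B') (x : E) : inner ℂ f (PT A B x) = 0 := by
  rw [← inner_conj_symm, h.inner_PT hf, map_zero]

end Sh

end

end V11196.NR
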