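import Pool.Agent.V11196.NR.Shift

/-! Values of power series with square-summable coefficients on the bidisc. -/

open Function

namespace V11196.NR

noncomputable section

/-- a power series in one variable with bounded coefficients which vanishes on the disc is zero -/
theorem one_var {c : ℕ → ℂ} {C : ℝ} (hC : ∀ k, ‖c k‖ ≤ C)
    (h : ∀ z : ℂ, ‖z‖ < 1 → ∑' k, c k * z ^ k = 0) (N : ℕ) : c N = 0 := by
  have hC0 : 0 ≤ C := (norm_nonneg _).trans (hC 0)
  induction N using Nat.strong_induction_on with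
  | _ N ih =>
    have key : ∀ t : ℝ, 0 < t → t < 1 / 2 → ‖c N‖ ≤ 2 * C * t := by
      intro t ht ht2
      have hnt : ‖(t : ℂ)‖ = t := by rw [Complex.norm_real, Real.norm_of_nonneg ht.le]
      have hgeo : Summable fun k : ℕ => t ^ k := summable_geometric_of_lt_one ht.le (by linarith)
      have hs : Summable fun k : ℕ => c k * (t : ℂ) ^ k := by
        refine Summable.of_norm_bounded (g := fun k : ℕ => C * t ^ k) (hgeo.mul_left C) ?_
        intro k
        rw [norm_mul, norm_pow, hnt]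
        exact mul_le_mul_of_nonneg_right (hC k) (by positivity)
      have h1 := hs.sum_add_tsum_nat_add (N + 1)
      rw [h t (by rw [hnt]; linarith), Finset.sum_range_succ, Finset.sum_eq_zero
        (fun i hi => by rw [ih i (Finset.mem_range.mp hi), zero_mul]), zero_add] at h1
      have h2 : c N * (t : ℂ) ^ N = -∑' k, c (k + (N + 1)) * (t : ℂ) ^ (k + (N + 1)) :=
        eq_neg_of_add_eq_zero_left h1
      have h3 : ‖c N * (t : ℂ) ^ N‖ ≤ ∑' k : ℕ, C * t ^ (N + 1) * t ^ k := by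
        rw [h2, norm_neg]
        apply tsum_of_norm_bounded (hgeo.mul_left _).hasSum
        intro k
        rw [norm_mul, norm_pow, hnt, pow_add, mul_comm (t ^ k), ← mul_assoc]
        exact mul_le_mul_of_nonneg_right (mul_le_mul_of_nonneg_right (hC _) (by positivity))
          (by positivity)
      rw [tsum_mul_left, tsum_geometric_of_lt_one ht.le (by linarith), norm_mul, norm_pow, hnt]
        at h3
      have h4 : (1 - t)⁻¹ ≤ 2 := by
        rw [inv_le_comm₀ (by linarith) (by norm_num)]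
        linarith
      have h5 : ‖c N‖ * t ^ N ≤ (2 * C * t) * t ^ N := by
        calc ‖c N‖ * t ^ N ≤ C * t ^ (N + 1) * (1 - t)⁻¹ := h3
          _ ≤ C * t ^ (N + 1) * 2 := mul_le_mul_of_nonneg_left h4 (by positivity)
          _ = (2 * C * t) * t ^ N := by ring
      exact le_of_mul_le_mul_right h5 (by positivity)
    by_contra hne
    have hpos : 0 < ‖c N‖ := norm_pos_iff.mpr hne
    set t : ℝ := min (1 / 4) (‖c N‖ / (4 * (C + 1))) with ht
    have ht0 : 0 < t := by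
      rw [ht]
      exact lt_min (by norm_num) (by positivity)
    have h1 := key t ht0 (lt_of_le_of_lt (min_le_left _ _) (by norm_num))
    have h2 : t ≤ ‖c N‖ / (4 * (C + 1)) := min_le_right _ _
    rw [le_div_iff₀ (by positivity)] at h2
    nlinarith

/-- the value of the power series at a point -/
def ev (f : L2 (ℕ × ℕ)) (z w : ℂ) : ℂ := ∑' n : ℕ × ℕ, f n * (z ^ n.1 * w ^ n.2)

lemma geo_prod {z w : ℂ} (hz : ‖z‖ < 1) (hw : ‖w‖ < 1) :
    Summable fun n : ℕ × ℕ => ‖z‖ ^ n.1 * ‖w‖ ^ n.2 :=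
  (summable_geometric_of_lt_one (norm_nonneg z) hz).mul_of_nonneg
    (summable_geometric_of_lt_one (norm_nonneg w) hw)
    (fun _ => by positivity) (fun _ => by positivity)

lemma norm_coef (f : L2 (ℕ × ℕ)) (n : ℕ × ℕ) : ‖f n‖ ≤ ‖f‖ :=
  lp.norm_apply_le_norm (by norm_num) f n

lemma ev_summable (f : L2 (ℕ × ℕ)) {z w : ℂ} (hz : ‖z‖ < 1) (hw : ‖w‖ < 1) :
    Summable fun n : ℕ × ℕ => f n * (z ^ n.1 * w ^ n.2) := by
  refine Summable.of_norm_bounded (g := fun n : ℕ × ℕ => ‖f‖ * (‖z‖ ^ n.1 * ‖w‖ ^ n.2))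
    ((geo_prod hz hw).mul_left _) ?_
  intro n
  rw [norm_mul, norm_mul, norm_pow, norm_pow]
  exact mul_le_mul_of_nonneg_right (norm_coef f n) (by positivity)

lemma ev_add (f g : L2 (ℕ × ℕ)) {z w : ℂ} (hz : ‖z‖ < 1) (hw : ‖w‖ < 1) :
    ev (f + g) z w = ev f z w + ev g z w := by
  unfold ev
  rw [← (ev_summable f hz hw).tsum_add (ev_summable g hz hw)]
  apply tsum_congr
  intro n
  rw [lp.coeFn_add, Pi.add_apply, add_mul]

lemma ev_smul (c : ℂ) (f : L2 (ℕ × ℕ)) (z w : ℂ) :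
    ev (c • f) z w = c * ev f z w := by
  unfold ev
  rw [← tsum_mul_left]
  apply tsum_congr
  intro n
  rw [lp.coeFn_smul, Pi.smul_apply, smul_eq_mul, mul_assoc]

lemma ev_Z1 (f : L2 (ℕ × ℕ)) (z w : ℂ) : ev (Z1 f) z w = z * ev f z w := by
  unfold ev Z1
  rw [← tsum_mul_left, ← s1_inj.tsum_eq]
  · apply tsum_congr
    intro n
    rw [push_apply]
    simp only [s1]
    ring
  · intro n hn
    by_contra hcon
    apply hn
    change push s1 s1_inj f n * _ = 0
    rw [push_apply' _ _ _ (by simpa using hcon), zero_mul]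

lemma ev_Z2 (f : L2 (ℕ × ℕ)) (z w : ℂ) : ev (Z2 f) z w = w * ev f z w := by
  unfold ev Z2
  rw [← tsum_mul_left, ← s2_inj.tsum_eq]
  · apply tsum_congr
    intro n
    rw [push_apply]
    simp only [s2]
    ring
  · intro n hn
    by_contra hcon
    apply hn
    change push s2 s2_inj f n * _ = 0
    rw [push_apply' _ _ _ (by simpa using hcon), zero_mul]

/-- a square-summable power series which vanishes on the bidisc is zero -/
theorem ev_inj {f g : L2 (ℕ × ℕ)} (h : ∀ z w : ℂ, ‖z‖ < 1 → ‖w‖ < 1 → ev f z w = ev g z w) :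
    f = g := by
  have h0 : ∀ z w : ℂ, ‖z‖ < 1 → ‖w‖ < 1 → ev (f - g) z w = 0 := by
    intro z w hz hw
    have : f - g = f + (-1 : ℂ) • g := by rw [neg_one_smul, sub_eq_add_neg]
    rw [this, ev_add _ _ hz hw, ev_smul, h z w hz hw]
    ring
  have h1 : ∀ w : ℂ, ‖w‖ < 1 → ∀ a : ℕ, ∑' b : ℕ, (f - g) (a, b) * w ^ b = 0 := by
    intro w hw
    have hgeo : Summable fun k : ℕ => ‖w‖ ^ k := summable_geometric_of_lt_one (norm_nonneg w) hw
    apply one_var (C := ∑' b : ℕ, ‖f - g‖ * ‖w‖ ^ b)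
    · intro a
      apply tsum_of_norm_bounded (hgeo.mul_left _).hasSum
      intro b
      rw [norm_mul, norm_pow]
      exact mul_le_mul_of_nonneg_right (norm_coef _ _) (by positivity)
    · intro z hz
      have h2 := h0 z w hz hw
      unfold ev at h2
      rw [(ev_summable (f - g) hz hw).tsum_prod] at h2
      rw [← h2]
      apply tsum_congr
      intro a
      rw [← tsum_mul_right]
      apply tsum_congr
      intro b
      ring
  have h2 : f - g = 0 := by
    ext ⟨a, b⟩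
    have h3 := one_var (c := fun b => (f - g) (a, b)) (C := ‖f - g‖)
      (fun b => norm_coef (f - g) (a, b)) (fun w hw => h1 w hw a) b
    simpa using h3
  exact sub_eq_zero.mp h2

lemma ev_PP (f : L2 (ℕ × ℕ)) {z w : ℂ} (hz : ‖z‖ < 1) (hw : ‖w‖ < 1) :
    ev (PP Z1 Z2 f) z w = (1 + w * (z + z ^ 2) / 4) * ev f z w := by
  rw [PP_apply, ev_add _ _ hz hw, ev_smul, ev_Z2, ev_add _ _ hz hw, ev_Z1, ev_Z1, ev_Z1]
  ring

lemma ev_PT (f : L2 (ℕ × ℕ)) {z w : ℂ} (hz : ‖z‖ < 1) (hw : ‖w‖ < 1) :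
    ev (PT Z1 Z2 f) z w = (w * z ^ 2 + (1 + z) / 4) * ev f z w := by
  rw [PT_apply, ev_add _ _ hz hw, ev_smul, ev_Z2, ev_add _ _ hz hw, ev_Z1, ev_Z1]
  ring

lemma den_ne {z w : ℂ} (hz : ‖z‖ ≤ 1) (hw : ‖w‖ ≤ 1) : 1 + w * (z + z ^ 2) / 4 ≠ 0 := by
  intro h0
  have h1 : w * (z + z ^ 2) / 4 = -1 := by linear_combination h0
  have h2 : ‖w * (z + z ^ 2) / 4‖ = 1 := by rw [h1]; simp
  have h3 : ‖w * (z + z ^ 2) / 4‖ ≤ 1 / 2 := by
    rw [norm_div, norm_mul]
    have h4 : ‖(4 : ℂ)‖ = 4 := by norm_num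
    have h5 : ‖z + z ^ 2‖ ≤ 2 := by
      refine (norm_add_le _ _).trans ?_
      rw [norm_pow]
      nlinarith [norm_nonneg z]
    rw [h4]
    have h6 : ‖w‖ * ‖z + z ^ 2‖ ≤ 1 * 2 :=
      mul_le_mul hw h5 (norm_nonneg _) (by norm_num)
    linarith
  linarith

/-- the rational inner function -/
def th (z w : ℂ) : ℂ := (w * z ^ 2 + (1 + z) / 4) / (1 + w * (z + z ^ 2) / 4)

lemma orth_iff (f : L2 (ℕ × ℕ)) :
    (∀ g : L2 (ℕ × ℕ), (∃ u : L2 (ℕ × ℕ), ∀ z w : ℂ, ‖z‖ < 1 → ‖w‖ < 1 →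
      ev g z w = th z w * ev u z w) → inner ℂ g f = 0) ↔ f ∈ KK Z1 Z1' Z2 Z2' := by
  constructor
  · intro h
    rw [mem_KK]
    set y := Z1' (Z1' (Z2' (PP Z1 Z2 f))) with hy
    have h1 : inner ℂ (PT Z1 Z2 y) f = 0 := by
      apply h
      refine ⟨PP Z1 Z2 y, fun z w hz hw => ?_⟩
      rw [ev_PT _ hz hw, ev_PP _ hz hw, th, ← mul_assoc, div_mul_cancel₀ _ (den_ne hz.le hw.le)]
    rw [shNat.adjPT, ← hy] at h1
    exact inner_self_eq_zero.mp h1
  · rintro hf g ⟨u, hu⟩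
    obtain ⟨Pi, hPi, hPi'⟩ := shNat.exists_inv
    have h1 : g = PT Z1 Z2 (Pi u) := by
      apply ev_inj
      intro z w hz hw
      rw [hu z w hz hw, ev_PT _ hz hw]
      have h2 := ev_PP (Pi u) hz hw
      rw [hPi] at h2
      rw [h2, th, ← mul_assoc, div_mul_cancel₀ _ (den_ne hz.le hw.le)]
    rw [h1]
    exact shNat.inner_PT hf _

end

end V11196.NR
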