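import Pool.Agent.V11196.NR.Abs

/-! Positivity on `S₂` and the extremal vector. -/

open ComplexConjugate

namespace V11196.NR

noncomputable section

variable {E : Type*} [NormedAddCommGroup E] [InnerProductSpace ℂ E] [CompleteSpace E]

lemma conj_quarter : conj (1 / 4 : ℂ) = 1 / 4 := by
  rw [map_div₀, map_one, Complex.conj_ofNat]

namespace Sh

variable {A A' B B' : E →L[ℂ] E} (h : Sh A A' B B')
include h

lemma inner_self_AA' (x y : E) :
    inner ℂ x (y + A y + A' y) = inner ℂ (x + A x + A' x) y := by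
  rw [inner_add_right, inner_add_right, inner_add_left, inner_add_left, h.adjA', ← h.adjA]
  ring

lemma re_quad (f : E) :
    (inner ℂ f (f + A f + A' f) : ℂ).re = ‖f‖ ^ 2 + 2 * (inner ℂ f (A f) : ℂ).re := by
  rw [inner_add_right, inner_add_right, ← h.adjA]
  rw [show inner ℂ (A f) f = conj (inner ℂ f (A f)) from (inner_conj_symm _ _).symm]
  rw [Complex.add_re, Complex.add_re, Complex.conj_re, inner_self_eq_norm_sq_to_K]
  have h1 : (((‖f‖ : ℝ) : ℂ) ^ 2).re = ‖f‖ ^ 2 := by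
    rw [← Complex.ofReal_pow, Complex.ofReal_re]
  have h2 : ((RCLike.ofReal ‖f‖ : ℂ) ^ 2).re = ‖f‖ ^ 2 := h1
  rw [h2]
  ring

/-- the fundamental identity for `S₂` -/
lemma key_id (f : E) (hf : f ∈ SS A A' B) :
    PP A B (f + A f + A' f) =
      (PP A B f - A (A' (PP A B f))) + A (PP A B f - A (A' (PP A B f)))
      + A' (PP A B f) + A (A' (PP A B f)) + A (A (A' (PP A B f)))
      - (1 / 4 : ℂ) • B ((PP A B f - A (A' (PP A B f))) + A (PP A B f - A (A' (PP A B f)))) := by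
  rw [map_add, map_add, h.PP_A, h.PP_A']
  simp only [map_sub, smul_add, smul_sub, map_add]
  abel

end Sh

/-- positivity in the two-sided case -/
theorem pos_of_unitary {A A' B B' : E →L[ℂ] E} (h : Sh A A' B B') (hBB' : ∀ x, B (B' x) = x)
    {f : E} (hf : f ∈ SS A A' B) : 0 ≤ ‖f‖ ^ 2 + 2 * (inner ℂ f (A f) : ℂ).re := by
  obtain ⟨Pi, hPi, hPi'⟩ := h.exists_inv
  -- commutations of the inverse
  have hAB' : ∀ x, A (B' x) = B' (A x) := fun x => (h.B'A x).symm
  have hPB' : ∀ x, PP A B (B' x) = B' (PP A B x) := by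
    intro x
    have h1 : B' (PP A B (B (B' x))) = B' (B (PP A B (B' x))) := by rw [h.PP_B]
    rw [h.B'B, hBB'] at h1
    exact h1.symm
  have inj : ∀ x y, PP A B x = PP A B y → x = y := by
    intro x y hxy
    have := congrArg Pi hxy
    rwa [hPi', hPi'] at this
  have hPiA : ∀ x, Pi (A x) = A (Pi x) := fun x => inj _ _ (by rw [h.PP_A, hPi, hPi])
  have hPiB : ∀ x, Pi (B x) = B (Pi x) := fun x => inj _ _ (by rw [h.PP_B, hPi, hPi])
  have hPiB' : ∀ x, Pi (B' x) = B' (Pi x) := fun x => inj _ _ (by rw [hPB', hPi, hPi])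
  -- the operator `K = 2 - (B + B') / 4`
  set K : E →L[ℂ] E := (2 : ℂ) • 1 - (1 / 4 : ℂ) • (B + B') with hK
  have hKx : ∀ x, K x = (2 : ℂ) • x - (1 / 4 : ℂ) • (B x + B' x) := by
    intro x
    simp [hK]
  have hKinv : ∃ Ki : E →L[ℂ] E, (∀ x, K (Ki x) = x) ∧ ∀ x, Ki (K x) = x := by
    have hn : ‖(1 / 8 : ℂ) • (B + B')‖ < 1 := by
      have h1 : ‖(1 / 8 : ℂ) • (B + B')‖ ≤ 1 / 4 := by
        apply ContinuousLinearMap.opNorm_le_bound _ (by norm_num)
        intro x
        have h2 : ((1 / 8 : ℂ) • (B + B')) x = (1 / 8 : ℂ) • (B x + B' x) := by simp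
        rw [h2, norm_smul]
        have h3 : ‖B x + B' x‖ ≤ ‖x‖ + ‖x‖ :=
          (norm_add_le _ _).trans (add_le_add (h.normB x).le (h.normB' x))
        have h4 : ‖(1 / 8 : ℂ)‖ = 1 / 8 := by norm_num
        rw [h4]
        linarith
      linarith
    obtain ⟨u, hu⟩ := isUnit_one_sub_of_norm_lt_one hn
    have hKu : K = (2 : ℂ) • (u : E →L[ℂ] E) := by
      rw [hu, hK, smul_sub, smul_smul]
      norm_num
    refine ⟨(1 / 2 : ℂ) • (↑u⁻¹ : E →L[ℂ] E), fun x => ?_, fun x => ?_⟩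
    · have h6 := congrArg (fun T : E →L[ℂ] E => T x) u.mul_inv
      have h6' : (u : E →L[ℂ] E) ((↑u⁻¹ : E →L[ℂ] E) x) = x := h6
      rw [hKu]
      simp only [smul_apply, map_smul, h6', smul_smul]
      norm_num
    · have h6 := congrArg (fun T : E →L[ℂ] E => T x) u.inv_mul
      have h6' : (↑u⁻¹ : E →L[ℂ] E) ((u : E →L[ℂ] E) x) = x := h6
      rw [hKu]
      simp only [smul_apply, map_smul, h6', smul_smul]
      norm_num
  obtain ⟨Ki, hKi, hKi'⟩ := hKinv
  have injK : ∀ x y, K x = K y → x = y := by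
    intro x y hxy
    have := congrArg Ki hxy
    rwa [hKi', hKi'] at this
  have hKA : ∀ x, K (A x) = A (K x) := by
    intro x
    simp only [hKx, map_sub, map_smul, map_add, h.AB, hAB']
  have hKA' : ∀ x, K (A' x) = A' (K x) := by
    intro x
    simp only [hKx, map_sub, map_smul, map_add, h.A'B, h.B'A']
  have hPiK : ∀ x, Pi (K x) = K (Pi x) := by
    intro x
    simp only [hKx, map_sub, map_smul, map_add, hPiB, hPiB']
  have hKiA' : ∀ x, Ki (A' x) = A' (Ki x) := fun x => injK _ _ (by rw [hKA', hKi, hKi])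
  -- decomposition of `f`
  set g := PP A B f with hg
  rw [mem_SS, ← hg] at hf
  set g1 := A' g with hg1
  set g0 := g - A g1 with hg0
  have hA'g0 : A' g0 = 0 := by rw [hg0, map_sub, h.A'A, hg1, sub_self]
  have hA'g1 : A' g1 = 0 := hf
  set κ := g0 - (1 / 4 : ℂ) • B g0 + g1 - (1 / 4 : ℂ) • B' g1 with hκ
  have hA'κ : A' κ = 0 := by
    rw [hκ]
    simp only [map_sub, map_add, map_smul, h.A'B, ← h.B'A', hA'g0, hA'g1, map_zero, smul_zero,
      sub_zero, add_zero]
  -- the general formula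
  have formula : ∀ s ∈ SS A A' B, inner ℂ s (f + A f + A' f) = inner ℂ s (Pi (κ + A κ)) := by
    intro s hs
    have h1 : PP A B (f + A f + A' f) = PT A B (B' g1) + (κ + A κ) := by
      rw [h.key_id f (by rw [mem_SS, ← hg]; exact hf)]
      rw [← hg, ← hg1, ← hg0, PT_apply, hκ]
      simp only [map_sub, map_add, map_smul, hAB', h.AB, smul_add]
      rw [hBB']
      abel
    have h2 : f + A f + A' f = Pi (PT A B (B' g1)) + Pi (κ + A κ) := by
      rw [← map_add, ← h1, hPi']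
    have h3 : Pi (PT A B (B' g1)) = PT A B (Pi (B' g1)) :=
      inj _ _ (by rw [hPi, h.PP_PT, hPi])
    rw [h2, inner_add_right, h3, h.inner_PT' (h.SS_le_KK hs), zero_add]
  -- the auxiliary vector
  set φ := Ki κ with hφ
  have hKφ : K φ = κ := hKi κ
  have hA'φ : A' φ = 0 := by rw [hφ, ← hKiA', hA'κ, map_zero]
  set f' := Pi (φ + A φ) with hf'
  have hPf' : PP A B f' = φ + A φ := hPi _
  have hf'S : f' ∈ SS A A' B := by
    rw [mem_SS, hPf', map_add, map_add, h.A'A, hA'φ, map_zero, zero_add]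
  have hKf' : Pi (κ + A κ) = K f' := by
    rw [hf', ← hPiK]
    congr 1
    rw [map_add, hKA, hKφ]
  have formula' : ∀ s ∈ SS A A' B, inner ℂ s (f' + A f' + A' f') = inner ℂ s (Pi (κ + A κ)) := by
    intro s hs
    have e0 : A' (PP A B f') = φ := by rw [hPf', map_add, h.A'A, hA'φ, zero_add]
    have h1 : PP A B (f' + A f' + A' f') = PT A B (B' φ) + (κ + A κ) := by
      rw [h.key_id f' hf'S, e0, hPf', PT_apply, ← hKφ, hKx]
      simp only [map_sub, map_add, map_smul, hAB', h.AB, smul_add, add_sub_cancel_right]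
      rw [hBB']
      module
    have h2 : f' + A f' + A' f' = Pi (PT A B (B' φ)) + Pi (κ + A κ) := by
      rw [← map_add, ← h1, hPi']
    have h3 : Pi (PT A B (B' φ)) = PT A B (Pi (B' φ)) :=
      inj _ _ (by rw [hPi, h.PP_PT, hPi])
    rw [h2, inner_add_right, h3, h.inner_PT' (h.SS_le_KK hs), zero_add]
  have hfS : f ∈ SS A A' B := hf
  rw [← h.re_quad]
  have c1 : inner ℂ f (f + A f + A' f) = conj (inner ℂ f' (K f')) := by
    rw [formula f hfS, ← formula' f hfS, h.inner_self_AA', ← inner_conj_symm,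
      formula f' hf'S, hKf']
  rw [c1, Complex.conj_re, hKx, inner_sub_right, inner_smul_right, inner_smul_right,
    inner_add_right]
  have c2 : ‖(inner ℂ f' (B f') + inner ℂ f' (B' f') : ℂ)‖ ≤ 2 * ‖f'‖ ^ 2 := by
    refine (norm_add_le _ _).trans ?_
    have d1 : ‖(inner ℂ f' (B f') : ℂ)‖ ≤ ‖f'‖ * ‖f'‖ := by
      refine (norm_inner_le_norm _ _).trans ?_
      rw [h.normB]
    have d2 : ‖(inner ℂ f' (B' f') : ℂ)‖ ≤ ‖f'‖ * ‖f'‖ := by
      refine (norm_inner_le_norm _ _).trans ?_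
      exact mul_le_mul_of_nonneg_left (h.normB' _) (norm_nonneg _)
    nlinarith
  have c3 := (Complex.abs_re_le_norm _).trans c2
  rw [abs_le] at c3
  rw [inner_self_eq_norm_sq_to_K]
  have c4 : ((2 : ℂ) * ((‖f'‖ : ℂ)) ^ 2 - 1 / 4 * (inner ℂ f' (B f') + inner ℂ f' (B' f'))).re
      = 2 * ‖f'‖ ^ 2 - 1 / 4 * (inner ℂ f' (B f') + inner ℂ f' (B' f') : ℂ).re := by
    rw [Complex.sub_re]
    congr 1
    · norm_cast
    · rw [show (1 / 4 : ℂ) = ((1 / 4 : ℝ) : ℂ) by norm_num, Complex.re_ofReal_mul]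
  have c5 : (0 : ℝ) ≤ 2 * ‖f'‖ ^ 2 - 1 / 4 * (inner ℂ f' (B f') + inner ℂ f' (B' f') : ℂ).re := by
    nlinarith [sq_nonneg ‖f'‖]
  calc (0 : ℝ) ≤ _ := c5
    _ = _ := c4.symm

/-- the extremal vector -/
theorem exists_extremal {A A' B B' : E →L[ℂ] E} (h : Sh A A' B B') {δ : E} (hδ : δ ≠ 0)
    (hA : A' δ = 0) (hB : B' δ = 0) :
    ∃ f ∈ SS A A' B, f ≠ 0 ∧ ‖f‖ ^ 2 + 2 * (inner ℂ f (A f) : ℂ).re = 0 := by
  obtain ⟨Pi, hPi, hPi'⟩ := h.exists_inv
  have inj : ∀ x y, PP A B x = PP A B y → x = y := by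
    intro x y hxy
    have := congrArg Pi hxy
    rwa [hPi', hPi'] at this
  set x := δ - (1 / 4 : ℂ) • B δ with hx
  set g0 := (1 / 4 : ℂ) • δ - B δ with hg0
  set g1 := B x with hg1
  have e0 : A' g0 = 0 := by
    rw [hg0]
    simp [h.A'B, hA]
  have e1 : A' g1 = 0 := by
    rw [hg1, hx]
    simp [h.A'B, hA]
  set f := Pi (g0 + A g1) with hf
  have hPf : PP A B f = g0 + A g1 := hPi _
  have hA'P : A' (PP A B f) = g1 := by rw [hPf, map_add, e0, h.A'A, zero_add]
  have hfS : f ∈ SS A A' B := by rw [mem_SS, hA'P, e1]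
  refine ⟨f, hfS, ?_, ?_⟩
  · intro h0
    have h1 : g0 + A g1 = 0 := by rw [← hPf, h0, map_zero]
    have h2 : g1 = 0 := by rw [← hA'P, h0, map_zero, map_zero]
    rw [h2, map_zero, add_zero] at h1
    have h3 : B' g0 = -δ := by
      rw [hg0, map_sub, map_smul, hB, h.B'B, smul_zero, zero_sub]
    rw [h1, map_zero] at h3
    exact hδ (neg_eq_zero.mp h3.symm)
  · rw [← h.re_quad]
    have h1 : PP A B (f + A f + A' f) = PT A B x := by
      rw [h.key_id f hfS, hA'P, hPf, PT_apply]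
      simp only [add_sub_cancel_right]
      rw [hg1, hg0, hx]
      simp only [map_sub, map_add, map_smul, h.AB, smul_add, smul_sub]
      module
    have h2 : f + A f + A' f = Pi (PT A B x) := by rw [← h1, hPi']
    have h3 : Pi (PT A B x) = PT A B (Pi x) := inj _ _ (by rw [hPi, h.PP_PT, hPi])
    rw [h2, h3, h.inner_PT' (h.SS_le_KK hfS), Complex.zero_re]

end

end V11196.NR
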