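import Pool.Agent.V11196.NR.Pos

/-! Shifts on `ℓ²` spaces. -/

open Function

namespace V11196.NR

noncomputable section

/-- square-summable families -/
abbrev L2 (I : Type) : Type := lp (fun _ : I => ℂ) 2

variable {I J K : Type}

lemma toReal_two : (2 : ENNReal).toReal = 2 := by norm_num

lemma two_pos' : 0 < (2 : ENNReal).toReal := by norm_num

lemma summable_sq (f : L2 I) : Summable fun i => ‖f i‖ ^ (2 : ENNReal).toReal :=
  (lp.memℓp f).summable two_pos'

lemma mem_pull {σ : I → J} (hσ : Injective σ) (f : L2 J) :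
    Memℓp (fun i => (f (σ i) : ℂ)) 2 :=
  memℓp_gen ((summable_sq f).comp_injective hσ)

lemma mem_push {σ : I → J} (hσ : Injective σ) (f : L2 I) :
    Memℓp (fun j => (extend σ f (0 : J → ℂ) j : ℂ)) 2 := by
  apply memℓp_gen
  rw [← hσ.summable_iff]
  · refine (summable_sq f).congr fun i => ?_
    simp [hσ.extend_apply]
  · intro x hx
    rw [Function.extend_apply' _ _ _ (by simpa using hx)]
    simp

/-- restriction along an injection -/
def pull (σ : I → J) (hσ : Injective σ) : L2 J →L[ℂ] L2 I :=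
  LinearMap.mkContinuous
    { toFun := fun f => ⟨fun i => f (σ i), mem_pull hσ f⟩
      map_add' := fun f g => rfl
      map_smul' := fun c f => rfl } 1 (by
    intro f
    rw [one_mul]
    have h1 : ‖(⟨fun i => f (σ i), mem_pull hσ f⟩ : L2 I)‖ ^ (2 : ENNReal).toReal ≤
        ‖f‖ ^ (2 : ENNReal).toReal := by
      rw [lp.norm_rpow_eq_tsum two_pos', lp.norm_rpow_eq_tsum two_pos']
      exact tsum_comp_le_tsum_of_inj (summable_sq f) (fun j => by positivity) hσ
    rwa [Real.rpow_le_rpow_iff (norm_nonneg _) (norm_nonneg _) two_pos'] at h1)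

/-- extension by zero along an injection -/
def push (σ : I → J) (hσ : Injective σ) : L2 I →L[ℂ] L2 J :=
  LinearMap.mkContinuous
    { toFun := fun f => ⟨fun j => extend σ f (0 : J → ℂ) j, mem_push hσ f⟩
      map_add' := by
        intro f g
        ext j
        by_cases hj : ∃ i, σ i = j
        · obtain ⟨i, rfl⟩ := hj
          simp [hσ.extend_apply]
        · simp [Function.extend_apply' _ _ _ hj]
      map_smul' := by
        intro c f
        ext j
        by_cases hj : ∃ i, σ i = j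
        · obtain ⟨i, rfl⟩ := hj
          simp [hσ.extend_apply]
        · simp [Function.extend_apply' _ _ _ hj] } 1 (by
    intro f
    rw [one_mul]
    have h1 : ‖(⟨fun j => extend σ f (0 : J → ℂ) j, mem_push hσ f⟩ : L2 J)‖ ^
        (2 : ENNReal).toReal ≤ ‖f‖ ^ (2 : ENNReal).toReal := by
      rw [lp.norm_rpow_eq_tsum two_pos', lp.norm_rpow_eq_tsum two_pos']
      apply le_of_eq
      rw [← hσ.tsum_eq]
      · apply tsum_congr
        intro i
        simp [hσ.extend_apply]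
      · intro j hj
        by_contra hcon
        apply hj
        change ‖extend σ f (0 : J → ℂ) j‖ ^ (2 : ENNReal).toReal = 0
        rw [Function.extend_apply' _ _ _ (by simpa using hcon)]
        simp
    rwa [Real.rpow_le_rpow_iff (norm_nonneg _) (norm_nonneg _) two_pos'] at h1)

lemma pull_apply (σ : I → J) (hσ : Injective σ) (f : L2 J) (i : I) : pull σ hσ f i = f (σ i) :=
  rfl

lemma push_apply (σ : I → J) (hσ : Injective σ) (f : L2 I) (i : I) :
    push σ hσ f (σ i) = f i := hσ.extend_apply _ _ _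

lemma push_apply' (σ : I → J) (hσ : Injective σ) (f : L2 I) {j : J} (hj : ¬ ∃ i, σ i = j) :
    push σ hσ f j = 0 := Function.extend_apply' _ _ _ hj

lemma pull_push (σ : I → J) (hσ : Injective σ) (f : L2 I) : pull σ hσ (push σ hσ f) = f := by
  ext i
  rw [pull_apply, push_apply]

lemma push_pull (σ : I → J) (hσ : Bijective σ) (f : L2 J) :
    push σ hσ.1 (pull σ hσ.1 f) = f := by
  ext j
  obtain ⟨i, rfl⟩ := hσ.2 j
  rw [push_apply, pull_apply]

lemma inner_push (σ : I → J) (hσ : Injective σ) (f : L2 I) (g : L2 J) :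
    inner ℂ (push σ hσ f) g = inner ℂ f (pull σ hσ g) := by
  rw [lp.inner_eq_tsum, lp.inner_eq_tsum, ← hσ.tsum_eq]
  · apply tsum_congr
    intro i
    rw [push_apply, pull_apply]
  · intro j hj
    by_contra hcon
    apply hj
    change inner ℂ (push σ hσ f j) (g j) = 0
    rw [push_apply' σ hσ f (by simpa using hcon), inner_zero_left]

lemma sq1 {ι : I → J} {σ : I → I} {τ : J → J} (hι : Injective ι) (hσ : Injective σ)
    (hτ : Injective τ) (hc : ∀ i, ι (σ i) = τ (ι i)) (f : L2 I) :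
    push ι hι (push σ hσ f) = push τ hτ (push ι hι f) := by
  ext j
  by_cases hj : ∃ i, ι (σ i) = j
  · obtain ⟨i, rfl⟩ := hj
    rw [push_apply, push_apply, hc, push_apply, push_apply]
  · have h1 : push ι hι (push σ hσ f) j = 0 := by
      by_cases h2 : ∃ i, ι i = j
      · obtain ⟨i, rfl⟩ := h2
        rw [push_apply]
        apply push_apply'
        rintro ⟨i', rfl⟩
        exact hj ⟨i', rfl⟩
      · exact push_apply' _ _ _ h2
    have h3 : push τ hτ (push ι hι f) j = 0 := by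
      by_cases h2 : ∃ i, τ i = j
      · obtain ⟨i, rfl⟩ := h2
        rw [push_apply]
        apply push_apply'
        rintro ⟨i', rfl⟩
        exact hj ⟨i', hc i'⟩
      · exact push_apply' _ _ _ h2
    rw [h1, h3]

lemma sq2 {ι : I → J} {σ : I → I} {τ : J → J} (hι : Injective ι) (hσ : Injective σ)
    (hτ : Injective τ) (hc : ∀ i, ι (σ i) = τ (ι i)) (hr : ∀ j i, ι i = τ j → ∃ i', ι i' = j)
    (f : L2 I) : pull τ hτ (push ι hι f) = push ι hι (pull σ hσ f) := by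
  ext j
  by_cases hj : ∃ i, ι i = j
  · obtain ⟨i, rfl⟩ := hj
    rw [push_apply, pull_apply, pull_apply, ← hc, push_apply]
  · rw [push_apply' _ _ _ hj, pull_apply]
    apply push_apply'
    rintro ⟨i, hi⟩
    exact hj (hr j i hi)

/-- general doubly commuting shifts -/
theorem sh_of {σ τ : I → I} (hσ : Injective σ) (hτ : Injective τ) (hc : ∀ i, σ (τ i) = τ (σ i))
    (h1 : ∀ j i, τ i = σ j → ∃ i', τ i' = j) (h2 : ∀ j i, σ i = τ j → ∃ i', σ i' = j) :
    Sh (push σ hσ) (pull σ hσ) (push τ hτ) (pull τ hτ) where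
  adjA := inner_push σ hσ
  adjB := inner_push τ hτ
  A'A := pull_push σ hσ
  B'B := pull_push τ hτ
  AB := sq1 hσ hτ hτ hc
  A'B := sq2 hτ hσ hσ (fun i => (hc i).symm) h1
  B'A := sq2 hσ hτ hτ hc h2
  B'A' := by
    intro f
    ext i
    simp only [pull_apply]
    rw [hc]

/-- the shift in the first variable -/
def s1 {J : Type} (p : ℕ × J) : ℕ × J := (p.1 + 1, p.2)

/-- the shift in the second variable -/
def s2 (p : ℕ × ℕ) : ℕ × ℕ := (p.1, p.2 + 1)

/-- the two-sided shift in the second variable -/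
def t2 (p : ℕ × ℤ) : ℕ × ℤ := (p.1, p.2 + 1)

/-- the embedding -/
def emb (p : ℕ × ℕ) : ℕ × ℤ := (p.1, (p.2 : ℤ))

lemma s1_inj {J : Type} : Injective (s1 (J := J)) := by
  rintro ⟨a, b⟩ ⟨c, d⟩ h
  simp only [s1, Prod.mk.injEq] at h ⊢
  exact ⟨by have := h.1; omega, h.2⟩

lemma s2_inj : Injective s2 := by
  rintro ⟨a, b⟩ ⟨c, d⟩ h
  simp only [s2, Prod.mk.injEq] at h ⊢
  exact ⟨h.1, by have := h.2; omega⟩

lemma t2_inj : Injective t2 := by
  rintro ⟨a, b⟩ ⟨c, d⟩ h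
  simp only [t2, Prod.mk.injEq] at h ⊢
  exact ⟨h.1, by have := h.2; omega⟩

lemma t2_bij : Bijective t2 :=
  ⟨t2_inj, by
    rintro ⟨a, b⟩
    exact ⟨(a, b - 1), by simp [t2]⟩⟩

lemma emb_inj : Injective emb := by
  rintro ⟨a, b⟩ ⟨c, d⟩ h
  simp only [emb, Prod.mk.injEq] at h ⊢
  exact ⟨h.1, by have := h.2; omega⟩

/-- multiplication by `z₁` -/
def Z1 : L2 (ℕ × ℕ) →L[ℂ] L2 (ℕ × ℕ) := push s1 s1_inj

/-- multiplication by `z₂` -/
def Z2 : L2 (ℕ × ℕ) →L[ℂ] L2 (ℕ × ℕ) := push s2 s2_inj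

/-- backward shift -/
def Z1' : L2 (ℕ × ℕ) →L[ℂ] L2 (ℕ × ℕ) := pull s1 s1_inj

/-- backward shift -/
def Z2' : L2 (ℕ × ℕ) →L[ℂ] L2 (ℕ × ℕ) := pull s2 s2_inj

theorem shNat : Sh Z1 Z1' Z2 Z2' := by
  apply sh_of
  · rintro ⟨a, b⟩
    rfl
  · rintro ⟨a, b⟩ ⟨c, d⟩ h
    simp only [s1, s2, Prod.mk.injEq] at h
    refine ⟨(a, d), ?_⟩
    simp only [s2, Prod.mk.injEq]
    exact ⟨trivial, h.2⟩
  · rintro ⟨a, b⟩ ⟨c, d⟩ h
    simp only [s1, s2, Prod.mk.injEq] at h
    refine ⟨(c, b), ?_⟩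
    simp only [s1, Prod.mk.injEq]
    exact ⟨h.1, trivial⟩

theorem shInt : Sh (push (s1 (J := ℤ)) s1_inj) (pull (s1 (J := ℤ)) s1_inj) (push t2 t2_inj)
    (pull t2 t2_inj) := by
  apply sh_of
  · rintro ⟨a, b⟩
    rfl
  · rintro ⟨a, b⟩ ⟨c, d⟩ h
    simp only [s1, t2, Prod.mk.injEq] at h
    refine ⟨(a, d), ?_⟩
    simp only [t2, Prod.mk.injEq]
    exact ⟨trivial, h.2⟩
  · rintro ⟨a, b⟩ ⟨c, d⟩ h
    simp only [s1, t2, Prod.mk.injEq] at h
    refine ⟨(c, b), ?_⟩
    simp only [s1, Prod.mk.injEq]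
    exact ⟨h.1, trivial⟩

/-- positivity on the space `S₂` -/
theorem pos_SS {f : L2 (ℕ × ℕ)} (hf : f ∈ SS Z1 Z1' Z2) :
    0 ≤ ‖f‖ ^ 2 + 2 * (inner ℂ f (Z1 f) : ℂ).re := by
  have hJA : ∀ g, push emb emb_inj (Z1 g) = push s1 s1_inj (push emb emb_inj g) :=
    sq1 emb_inj s1_inj s1_inj (by rintro ⟨a, b⟩; rfl)
  have hJB : ∀ g, push emb emb_inj (Z2 g) = push t2 t2_inj (push emb emb_inj g) :=
    sq1 emb_inj s2_inj t2_inj (by rintro ⟨a, b⟩; simp [emb, s2, t2])
  have hJA' : ∀ g, pull s1 s1_inj (push emb emb_inj g) = push emb emb_inj (Z1' g) :=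
    sq2 emb_inj s1_inj s1_inj (by rintro ⟨a, b⟩; rfl) (by
      rintro ⟨a, b⟩ ⟨c, d⟩ h
      simp only [s1, emb, Prod.mk.injEq] at h
      refine ⟨(a, d), ?_⟩
      simp only [emb, Prod.mk.injEq]
      exact ⟨trivial, h.2⟩)
  have hPP : PP (push s1 s1_inj) (push t2 t2_inj) (push emb emb_inj f) =
      push emb emb_inj (PP Z1 Z2 f) := by
    rw [PP_apply, PP_apply]
    simp only [map_add, map_smul, hJA, hJB]
  have h1 : push emb emb_inj f ∈
      SS (push (s1 (J := ℤ)) s1_inj) (pull (s1 (J := ℤ)) s1_inj) (push t2 t2_inj) := by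
    rw [mem_SS] at hf ⊢
    rw [hPP, hJA', hJA', hf, map_zero]
  have h2 := pos_of_unitary shInt (push_pull t2 t2_bij) h1
  have h3 : ∀ u v, inner ℂ (push emb emb_inj u) (push emb emb_inj v) = inner ℂ u v := by
    intro u v
    rw [inner_push, pull_push]
  rw [← hJA, h3] at h2
  have h4 : ‖push emb emb_inj f‖ = ‖f‖ := by
    have h5 := h3 f f
    rw [inner_self_eq_norm_sq_to_K, inner_self_eq_norm_sq_to_K] at h5
    have h6 : ‖push emb emb_inj f‖ ^ 2 = ‖f‖ ^ 2 := by exact_mod_cast h5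
    exact (sq_eq_sq₀ (norm_nonneg _) (norm_nonneg _)).mp h6
  rwa [h4] at h2

/-- the extremal vector in `S₂` -/
theorem extremal_SS : ∃ f ∈ SS Z1 Z1' Z2, f ≠ 0 ∧
    ‖f‖ ^ 2 + 2 * (inner ℂ f (Z1 f) : ℂ).re = 0 := by
  have hδ : (lp.single 2 ((0, 0) : ℕ × ℕ) (1 : ℂ) : L2 (ℕ × ℕ)) ≠ 0 := by
    intro h0
    have h1 := congrArg (fun f : L2 (ℕ × ℕ) => f (0, 0)) h0
    simp at h1
  refine exists_extremal shNat hδ ?_ ?_
  · ext ⟨a, b⟩
    change (pull s1 s1_inj (lp.single 2 ((0, 0) : ℕ × ℕ) (1 : ℂ) : L2 (ℕ × ℕ))) (a, b) = 0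
    rw [pull_apply, lp.single_apply_ne]
    simp [s1]
  · ext ⟨a, b⟩
    change (pull s2 s2_inj (lp.single 2 ((0, 0) : ℕ × ℕ) (1 : ℂ) : L2 (ℕ × ℕ))) (a, b) = 0
    rw [pull_apply, lp.single_apply_ne]
    simp [s2]

end

end V11196.NR
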